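import Pool.Agent.H82.PD.Targets

/-!
# (BKL) lower bound for Bessel potentials of nonnegative functions, all dimensions
-/

set_option autoImplicit false

namespace Pool.Agent.H1.PD

open MeasureTheory Set Metric FourierTransform RealInnerProductSpace Filter Topology
open Pool.Agent.H82.PD
open scoped ENNReal NNReal SchwartzMap

variable {d : ℕ}

/-- the character -/
noncomputable def chd (x ξ : EuclideanSpace ℝ (Fin d)) : ℂ :=
  Complex.exp (((2 * Real.pi * ⟪ξ, x⟫ : ℝ) : ℂ) * Complex.I)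

lemma norm_chd (x ξ : EuclideanSpace ℝ (Fin d)) : ‖chd x ξ‖ = 1 := by
  unfold chd
  exact Complex.norm_exp_ofReal_mul_I _

lemma continuous_chd : Continuous (fun w : EuclideanSpace ℝ (Fin d) × EuclideanSpace ℝ (Fin d) =>
    chd w.1 w.2) := by
  unfold chd
  fun_prop

lemma fourierInv_chd (g : EuclideanSpace ℝ (Fin d) → ℂ) (x : EuclideanSpace ℝ (Fin d)) :
    𝓕⁻ g x = ∫ ξ, chd x ξ * g ξ := by
  rw [Real.fourierInv_eq']
  rfl

/-- heat kernel -/
noncomputable def hk (s : ℝ) (z : EuclideanSpace ℝ (Fin d)) : ℝ :=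
  (4 * Real.pi * s) ^ (-((d : ℝ) / 2) : ℝ) * Real.exp (-(‖z‖ ^ 2 / (4 * s)))

lemma hk_nonneg (s : ℝ) (hs : 0 < s) (z : EuclideanSpace ℝ (Fin d)) : 0 ≤ hk s z := by
  unfold hk; positivity

lemma heat_formula (f : EuclideanSpace ℝ (Fin d) → ℂ) (hf : Integrable f) (s : ℝ) (hs : 0 < s)
    (x : EuclideanSpace ℝ (Fin d)) :
    ∫ ξ, chd x ξ * (((Real.exp (-(4 * Real.pi ^ 2 * s * ‖ξ‖ ^ 2)) : ℝ) : ℂ) * 𝓕 f ξ) =
      ∫ y, ((hk s (x - y) : ℝ) : ℂ) * f y := by
  set b : ℂ := ((4 * Real.pi ^ 2 * s : ℝ) : ℂ) with hb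
  have hbre : 0 < b.re := by
    rw [hb, Complex.ofReal_re]
    have := Real.pi_pos
    positivity
  have J : Integrable (fun w : EuclideanSpace ℝ (Fin d) ↦
      Complex.exp (-b * ‖w‖ ^ 2 + 2 * Real.pi * Complex.I * ⟪x, w⟫)) :=
    GaussianFourier.integrable_cexp_neg_mul_sq_norm_add hbre _ _
  have h1 := (VectorFourier.integral_fourierIntegral_smul_eq_flip
      (L := innerₗ (EuclideanSpace ℝ (Fin d)))
      Real.continuous_fourierChar continuous_inner J hf)
  have h2 : ∫ ξ, chd x ξ * (((Real.exp (-(4 * Real.pi ^ 2 * s * ‖ξ‖ ^ 2)) : ℝ) : ℂ) * 𝓕 f ξ) =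
      ∫ w : EuclideanSpace ℝ (Fin d),
        Complex.exp (-b * ‖w‖ ^ 2 + 2 * Real.pi * Complex.I * ⟪x, w⟫) * 𝓕 f w := by
    congr 1; ext w
    rw [← mul_assoc]
    congr 1
    unfold chd
    rw [Complex.ofReal_exp, ← Complex.exp_add]
    congr 1
    rw [hb, real_inner_comm]
    push_cast
    ring
  have h3 : ∫ w : EuclideanSpace ℝ (Fin d),
      Complex.exp (-b * ‖w‖ ^ 2 + 2 * Real.pi * Complex.I * ⟪x, w⟫) * 𝓕 f w =
      ∫ w : EuclideanSpace ℝ (Fin d), 𝓕 (fun v : EuclideanSpace ℝ (Fin d) =>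
        Complex.exp (-b * ‖v‖ ^ 2 + 2 * Real.pi * Complex.I * ⟪x, v⟫)) w * f w := by
    simpa using! h1.symm
  rw [h2, h3]
  congr 1; ext w
  congr 1
  rw [fourier_gaussian_innerProductSpace' hbre]
  unfold hk
  have e1 : ((Real.pi : ℂ) / b) = (((4 * Real.pi * s)⁻¹ : ℝ) : ℂ) := by
    rw [hb]
    have := Real.pi_pos
    rw [← Complex.ofReal_div]
    congr 1
    field_simp
  rw [e1]
  have e2 : ((Module.finrank ℝ (EuclideanSpace ℝ (Fin d)) : ℂ) / 2) = ((((d : ℝ) / 2 : ℝ)) : ℂ) := by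
    simp
  rw [e2, ← Complex.ofReal_cpow (by have := Real.pi_pos; positivity)]
  push_cast
  congr 1
  · rw [Real.rpow_neg (by have := Real.pi_pos; positivity),
      Real.inv_rpow (by have := Real.pi_pos; positivity)]
  · congr 1
    rw [hb]
    have := Real.pi_pos
    have h4 : (Real.pi : ℂ) ≠ 0 := by exact_mod_cast this.ne'
    have h5 : (s : ℂ) ≠ 0 := by exact_mod_cast hs.ne'
    push_cast
    field_simp

lemma subord (β : ℝ) (hβ : 0 < β) (k : ℝ) :
    (1 + 4 * Real.pi ^ 2 * k ^ 2) ^ (-β / 2) = (Real.Gamma (β / 2))⁻¹ *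
      ∫ s in Ioi (0 : ℝ), (s ^ (β / 2 - 1) * Real.exp (-s)) * Real.exp (-(4 * Real.pi ^ 2 * s * k ^ 2)) := by
  have hr : 0 < 1 + 4 * Real.pi ^ 2 * k ^ 2 := by positivity
  have h := Real.integral_rpow_mul_exp_neg_mul_Ioi (a := β / 2) (by positivity) hr
  have hG : 0 < Real.Gamma (β / 2) := Real.Gamma_pos_of_pos (by positivity)
  have e : ∀ s : ℝ, (s ^ (β / 2 - 1) * Real.exp (-s)) * Real.exp (-(4 * Real.pi ^ 2 * s * k ^ 2)) =
      s ^ (β / 2 - 1) * Real.exp (-((1 + 4 * Real.pi ^ 2 * k ^ 2) * s)) := by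
    intro s
    rw [mul_assoc, ← Real.exp_add]
    congr 2
    ring
  simp_rw [e]
  rw [h, one_div, Real.inv_rpow hr.le, neg_div, Real.rpow_neg hr.le]
  field_simp

/-- the weight in the subordination formula -/
noncomputable def gw (β s : ℝ) : ℝ := s ^ (β / 2 - 1) * Real.exp (-s)

lemma gw_nonneg (β s : ℝ) (hs : 0 < s) : 0 ≤ gw β s := by unfold gw; positivity

lemma integrableOn_gw (β : ℝ) (hβ : 0 < β) : IntegrableOn (gw β) (Ioi 0) := by
  have := Real.GammaIntegral_convergent (s := β / 2) (by positivity)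
  refine this.congr_fun (fun s _ => ?_) measurableSet_Ioi
  unfold gw
  ring

lemma integrable_gwprod (f : EuclideanSpace ℝ (Fin d) → ℂ) (hf' : Integrable (𝓕 f)) (β : ℝ)
    (hβ : 0 < β) (x : EuclideanSpace ℝ (Fin d)) :
    Integrable (fun w : EuclideanSpace ℝ (Fin d) × ℝ => ((gw β w.2 : ℝ) : ℂ) *
        (chd x w.1 * (((Real.exp (-(4 * Real.pi ^ 2 * w.2 * ‖w.1‖ ^ 2)) : ℝ) : ℂ) * 𝓕 f w.1)))
      ((volume : Measure (EuclideanSpace ℝ (Fin d))).prod (volume.restrict (Ioi (0 : ℝ)))) := by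
  have h1 : Integrable (fun w : EuclideanSpace ℝ (Fin d) × ℝ => 𝓕 f w.1 * ((gw β w.2 : ℝ) : ℂ))
      ((volume : Measure (EuclideanSpace ℝ (Fin d))).prod (volume.restrict (Ioi (0 : ℝ)))) :=
    Integrable.mul_prod (f := fun ξ : EuclideanSpace ℝ (Fin d) => 𝓕 f ξ)
      (g := fun s : ℝ => ((gw β s : ℝ) : ℂ)) hf' (integrableOn_gw β hβ).ofReal
  have hch : Continuous (fun w : EuclideanSpace ℝ (Fin d) × ℝ => chd x w.1) :=
    continuous_chd.comp (f := fun w : EuclideanSpace ℝ (Fin d) × ℝ => (x, w.1)) (by fun_prop)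
  have hae : ∀ᵐ w : EuclideanSpace ℝ (Fin d) × ℝ
      ∂((volume : Measure (EuclideanSpace ℝ (Fin d))).prod (volume.restrict (Ioi (0 : ℝ)))),
      w.2 ∈ Ioi (0 : ℝ) :=
    (Measure.quasiMeasurePreserving_snd (μ := (volume : Measure (EuclideanSpace ℝ (Fin d))))
      (ν := volume.restrict (Ioi (0 : ℝ)))).ae (ae_restrict_mem measurableSet_Ioi)
  have h2 := h1.bdd_mul (c := 1) (f := fun w : EuclideanSpace ℝ (Fin d) × ℝ => chd x w.1 *
    (((Real.exp (-(4 * Real.pi ^ 2 * w.2 * ‖w.1‖ ^ 2)) : ℝ) : ℂ)))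
    (by
      apply Continuous.aestronglyMeasurable
      apply hch.mul
      fun_prop)
    (by
      filter_upwards [hae] with w hw
      have hw' : 0 < w.2 := hw
      rw [norm_mul, norm_chd, one_mul, Complex.norm_real, Real.norm_eq_abs, Real.abs_exp,
        Real.exp_le_one_iff]
      have : 0 ≤ 4 * Real.pi ^ 2 * w.2 * ‖w.1‖ ^ 2 := by positivity
      linarith)
  refine h2.congr ?_
  filter_upwards with w
  ring

lemma bessel_formula (f : EuclideanSpace ℝ (Fin d) → ℂ) (hf : Integrable f)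
    (hf' : Integrable (𝓕 f)) (β : ℝ) (hβ : 0 < β) (x : EuclideanSpace ℝ (Fin d)) :
    Pool.Agent.H84.BR.CD.besS (-β) f x = (((Real.Gamma (β / 2))⁻¹ : ℝ) : ℂ) *
      ∫ s in Ioi (0 : ℝ), ((gw β s : ℝ) : ℂ) * ∫ y, ((hk s (x - y) : ℝ) : ℂ) * f y := by
  have e1 : ∀ ξ : EuclideanSpace ℝ (Fin d),
      chd x ξ * ((((1 + 4 * Real.pi ^ 2 * ‖ξ‖ ^ 2) ^ (-β / 2) : ℝ) : ℂ) * 𝓕 f ξ) =
      (((Real.Gamma (β / 2))⁻¹ : ℝ) : ℂ) * ∫ s in Ioi (0 : ℝ), ((gw β s : ℝ) : ℂ) *
        (chd x ξ * (((Real.exp (-(4 * Real.pi ^ 2 * s * ‖ξ‖ ^ 2)) : ℝ) : ℂ) * 𝓕 f ξ)) := by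
    intro ξ
    rw [subord β hβ]
    have e2 : ∀ s : ℝ, ((gw β s : ℝ) : ℂ) *
        (chd x ξ * (((Real.exp (-(4 * Real.pi ^ 2 * s * ‖ξ‖ ^ 2)) : ℝ) : ℂ) * 𝓕 f ξ)) =
        (((gw β s * Real.exp (-(4 * Real.pi ^ 2 * s * ‖ξ‖ ^ 2)) : ℝ) : ℂ)) * (chd x ξ * 𝓕 f ξ) := by
      intro s; push_cast; ring
    simp_rw [e2]
    rw [integral_mul_const, integral_complex_ofReal]
    unfold gw
    push_cast
    ring
  unfold Pool.Agent.H84.BR.CD.besS
  rw [fourierInv_chd]
  simp_rw [e1]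
  rw [integral_const_mul]
  congr 1
  rw [integral_integral_swap (integrable_gwprod f hf' β hβ x)]
  apply setIntegral_congr_fun measurableSet_Ioi
  intro s hs
  simp only
  rw [integral_const_mul, heat_formula f hf s hs x]

/-- the kernel of the Bessel potential, up to the Gamma factor -/
noncomputable def besKd (β : ℝ) (z : EuclideanSpace ℝ (Fin d)) : ENNReal :=
  ∫⁻ s in Ioi (0 : ℝ), ENNReal.ofReal (gw β s * hk s z)

lemma measurable_gw (β : ℝ) : Measurable (gw β) := by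
  unfold gw; fun_prop

lemma measurable_hk : Measurable (fun w : ℝ × EuclideanSpace ℝ (Fin d) => hk w.1 w.2) := by
  unfold hk; fun_prop

lemma integrable_heat (g : EuclideanSpace ℝ (Fin d) → ℝ) (hf : Integrable g) (s : ℝ) (hs : 0 < s)
    (x : EuclideanSpace ℝ (Fin d)) :
    Integrable (fun y => hk s (x - y) * g y) := by
  apply hf.bdd_mul (c := (4 * Real.pi * s) ^ (-((d : ℝ) / 2) : ℝ))
  · apply Continuous.aestronglyMeasurable
    unfold hk
    fun_prop
  · filter_upwards with y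
    rw [Real.norm_eq_abs, abs_of_nonneg (hk_nonneg s hs _)]
    unfold hk
    have h1 : Real.exp (-(‖x - y‖ ^ 2 / (4 * s))) ≤ 1 := by
      rw [Real.exp_le_one_iff]
      have : 0 ≤ ‖x - y‖ ^ 2 / (4 * s) := by positivity
      linarith
    have h2 : 0 ≤ (4 * Real.pi * s) ^ (-((d : ℝ) / 2) : ℝ) := by positivity
    calc _ ≤ (4 * Real.pi * s) ^ (-((d : ℝ) / 2) : ℝ) * 1 := by gcongr
      _ = _ := by ring

lemma bessel_nonneg (g : EuclideanSpace ℝ (Fin d) → ℝ) (hg0 : ∀ x, 0 ≤ g x) (hgc : Continuous g)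
    (hf : Integrable g) (hf' : Integrable (𝓕 (fun x => (g x : ℂ)))) (β : ℝ) (hβ : 0 < β)
    (x : EuclideanSpace ℝ (Fin d)) :
    ‖Pool.Agent.H84.BR.CD.besS (-β) (fun x => (g x : ℂ)) x‖ₑ =
      ENNReal.ofReal ((Real.Gamma (β / 2))⁻¹) *
      ∫⁻ y, besKd β (x - y) * ENNReal.ofReal (g y) := by
  have hG : 0 < Real.Gamma (β / 2) := Real.Gamma_pos_of_pos (by positivity)
  rw [bessel_formula (fun x => (g x : ℂ)) hf.ofReal hf' β hβ x]
  set H : ℝ → ℝ := fun s => gw β s * ∫ y, hk s (x - y) * g y with hH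
  have e1 : ∀ s : ℝ, ((gw β s : ℝ) : ℂ) * ∫ y, ((hk s (x - y) : ℝ) : ℂ) * (g y : ℂ) = ((H s : ℝ) : ℂ) := by
    intro s
    rw [hH]
    simp only
    push_cast
    rw [← integral_complex_ofReal]
    push_cast
    rfl
  simp_rw [e1]
  have hH0 : ∀ s ∈ Ioi (0 : ℝ), 0 ≤ H s := fun s hs =>
    mul_nonneg (gw_nonneg β s hs) (integral_nonneg (fun y => mul_nonneg (hk_nonneg s hs _) (hg0 y)))
  have hHint : IntegrableOn H (Ioi 0) := by
    have h1 := (integrable_gwprod (fun x => (g x : ℂ)) hf' β hβ x).integral_prod_right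
    have h2 : IntegrableOn (fun s => ((H s : ℝ) : ℂ)) (Ioi 0) := by
      refine IntegrableOn.congr_fun h1 (fun s hs => ?_) measurableSet_Ioi
      simp only
      rw [integral_const_mul, heat_formula (fun x => (g x : ℂ)) hf.ofReal s hs x, ← e1]
    have h3 : Integrable (fun s => ((H s : ℝ) : ℂ)) (volume.restrict (Ioi 0)) := h2
    have h4 := h3.re
    exact h4
  rw [integral_complex_ofReal, ← Complex.ofReal_mul, ← ofReal_norm, Complex.norm_real,
    Real.norm_eq_abs, abs_of_nonneg (mul_nonneg (inv_nonneg.mpr hG.le)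
      (setIntegral_nonneg measurableSet_Ioi hH0)), ENNReal.ofReal_mul (inv_nonneg.mpr hG.le)]
  congr 1
  rw [ofReal_integral_eq_lintegral_ofReal hHint (by
    filter_upwards [ae_restrict_mem measurableSet_Ioi] with s hs using hH0 s hs)]
  have e2 : ∀ s ∈ Ioi (0 : ℝ), ENNReal.ofReal (H s) =
      ∫⁻ y, ENNReal.ofReal (gw β s * hk s (x - y)) * ENNReal.ofReal (g y) := by
    intro s hs
    rw [hH]
    simp only
    rw [ENNReal.ofReal_mul (gw_nonneg β s hs), ofReal_integral_eq_lintegral_ofReal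
      (integrable_heat g hf s hs x)
      (ae_of_all _ (fun y => mul_nonneg (hk_nonneg s hs _) (hg0 y))),
      ← lintegral_const_mul' _ _ ENNReal.ofReal_ne_top]
    congr 1; ext y
    rw [ENNReal.ofReal_mul (hk_nonneg s hs _), ENNReal.ofReal_mul (gw_nonneg β s hs), mul_assoc]
  rw [setLIntegral_congr_fun measurableSet_Ioi e2, lintegral_lintegral_swap]
  · congr 1; ext y
    unfold besKd
    rw [lintegral_mul_const']
    exact ENNReal.ofReal_ne_top
  · apply Measurable.aemeasurable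
    have m1 : Measurable (fun w : ℝ × EuclideanSpace ℝ (Fin d) => hk w.1 (x - w.2)) :=
      measurable_hk.comp (f := fun w : ℝ × EuclideanSpace ℝ (Fin d) => (w.1, x - w.2)) (by fun_prop)
    have m2 := measurable_gw β
    have m3 := hgc.measurable
    simp only [Function.uncurry_def]
    fun_prop

/-- the constant in the lower bound for the Bessel kernel -/
noncomputable def cK (d : ℕ) (β : ℝ) : ℝ :=
  (4 * Real.pi) ^ (-((d : ℝ) / 2) : ℝ) * min 1 (2 ^ ((β - d - 2) / 2)) * Real.exp (-513)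

lemma cK_pos (d : ℕ) (β : ℝ) : 0 < cK d β := by
  unfold cK
  have := Real.pi_pos
  have h : 0 < min (1 : ℝ) (2 ^ ((β - d - 2) / 2)) := lt_min one_pos (by positivity)
  positivity

lemma kernel_lower (β : ℝ) (b τ : ℝ) (hb : 0 < b) (hb16 : b ≤ 16)
    (h1 : b ^ 2 < τ) (h2 : τ < 2 * b ^ 2) (z : EuclideanSpace ℝ (Fin d)) (hz : ‖z‖ ≤ b) :
    cK d β * b ^ (β - d - 2) ≤ gw β τ * hk τ z := by
  have hpi := Real.pi_pos
  have hτ : 0 < τ := lt_trans (by positivity) h1
  have hb2 : b ^ 2 ≤ 256 := by nlinarith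
  have e1 : τ ^ (β / 2 - 1) * (4 * Real.pi * τ) ^ (-((d : ℝ) / 2) : ℝ) =
      (4 * Real.pi) ^ (-((d : ℝ) / 2) : ℝ) * τ ^ ((β - d - 2) / 2) := by
    rw [Real.mul_rpow (by positivity) hτ.le]
    have : τ ^ (β / 2 - 1) * τ ^ (-((d : ℝ) / 2) : ℝ) = τ ^ ((β - d - 2) / 2) := by
      rw [← Real.rpow_add hτ]
      congr 1
      ring
    calc τ ^ (β / 2 - 1) * ((4 * Real.pi) ^ (-((d : ℝ) / 2) : ℝ) * τ ^ (-((d : ℝ) / 2) : ℝ))
        = (4 * Real.pi) ^ (-((d : ℝ) / 2) : ℝ) * (τ ^ (β / 2 - 1) * τ ^ (-((d : ℝ) / 2) : ℝ)) := by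
          ring
      _ = _ := by rw [this]
  have hbb : (b ^ 2) ^ ((β - d - 2) / 2) = b ^ (β - d - 2) := by
    rw [← Real.rpow_natCast b 2, ← Real.rpow_mul hb.le]
    congr 1
    push_cast
    ring
  have e2 : min 1 (2 ^ ((β - d - 2) / 2)) * b ^ (β - d - 2) ≤ τ ^ ((β - d - 2) / 2) := by
    rcases le_total 0 ((β - d - 2) / 2) with h | h
    · calc min 1 (2 ^ ((β - d - 2) / 2)) * b ^ (β - d - 2) ≤ 1 * b ^ (β - d - 2) := by
            apply mul_le_mul_of_nonneg_right (min_le_left _ _) (by positivity)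
        _ = (b ^ 2) ^ ((β - d - 2) / 2) := by rw [hbb, one_mul]
        _ ≤ _ := Real.rpow_le_rpow (by positivity) h1.le h
    · calc min 1 (2 ^ ((β - d - 2) / 2)) * b ^ (β - d - 2) ≤
            2 ^ ((β - d - 2) / 2) * b ^ (β - d - 2) := by
            apply mul_le_mul_of_nonneg_right (min_le_right _ _) (by positivity)
        _ = (2 * b ^ 2) ^ ((β - d - 2) / 2) := by
            rw [Real.mul_rpow (by norm_num) (by positivity), hbb]
        _ ≤ _ := Real.rpow_le_rpow_of_nonpos hτ h2.le h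
  have e4 : Real.exp (-513) ≤ Real.exp (-τ) * Real.exp (-(‖z‖ ^ 2 / (4 * τ))) := by
    rw [← Real.exp_add]
    apply Real.exp_le_exp.mpr
    have hz2 : ‖z‖ ^ 2 ≤ b ^ 2 := pow_le_pow_left₀ (norm_nonneg _) hz 2
    have : ‖z‖ ^ 2 / (4 * τ) ≤ 1 := by
      rw [div_le_one (by positivity)]
      linarith
    linarith
  have hmin : 0 < min (1 : ℝ) (2 ^ ((β - d - 2) / 2)) := lt_min one_pos (by positivity)
  unfold gw hk
  calc cK d β * b ^ (β - d - 2) = ((4 * Real.pi) ^ (-((d : ℝ) / 2) : ℝ) *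
        (min 1 (2 ^ ((β - d - 2) / 2)) * b ^ (β - d - 2))) * Real.exp (-513) := by
        unfold cK; ring
    _ ≤ ((4 * Real.pi) ^ (-((d : ℝ) / 2) : ℝ) * τ ^ ((β - d - 2) / 2)) *
        (Real.exp (-τ) * Real.exp (-(‖z‖ ^ 2 / (4 * τ)))) := by gcongr
    _ = _ := by
        rw [← e1]; ring

lemma besKd_lower (β : ℝ) (b : ℝ) (hb : 0 < b) (hb16 : b ≤ 16)
    (z : EuclideanSpace ℝ (Fin d)) (hz : ‖z‖ ≤ b) :
    ENNReal.ofReal (cK d β * b ^ (β - d)) ≤ besKd β z := by
  have hc := cK_pos d β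
  calc ENNReal.ofReal (cK d β * b ^ (β - d)) =
        ENNReal.ofReal (cK d β * b ^ (β - d - 2)) * ENNReal.ofReal (b ^ 2) := by
        rw [← ENNReal.ofReal_mul (by positivity)]
        congr 1
        rw [mul_assoc, ← Real.rpow_natCast b 2, ← Real.rpow_add hb]
        congr 2
        push_cast
        ring
    _ = ∫⁻ τ in Ioo (b ^ 2) (2 * b ^ 2), ENNReal.ofReal (cK d β * b ^ (β - d - 2)) := by
        rw [setLIntegral_const, Real.volume_Ioo]
        congr 2
        ring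
    _ ≤ ∫⁻ τ in Ioo (b ^ 2) (2 * b ^ 2), ENNReal.ofReal (gw β τ * hk τ z) := by
        apply setLIntegral_mono' measurableSet_Ioo
        intro τ hτ
        exact ENNReal.ofReal_le_ofReal (kernel_lower β b τ hb hb16 hτ.1 hτ.2 z hz)
    _ ≤ besKd β z := by
        unfold besKd
        apply lintegral_mono_set
        intro τ hτ
        exact lt_trans (by positivity) hτ.1

theorem pf_BKL : T_BKL := by
  intro d κ _ hκ
  have hG : 0 < Real.Gamma (κ / 2) := Real.Gamma_pos_of_pos (by positivity)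
  have hc := cK_pos d κ
  refine ⟨((cK d κ)⁻¹ * Real.Gamma (κ / 2)).toNNReal, ?_⟩
  intro H hH b x hb hb16
  set g : EuclideanSpace ℝ (Fin d) → ℝ := fun y => (H y).re with hg
  have hHg : (H : EuclideanSpace ℝ (Fin d) → ℂ) = fun y => ((g y : ℝ) : ℂ) := by
    funext y
    apply Complex.ext
    · simp [hg]
    · simp [(hH y).1]
  have hg0 : ∀ y, 0 ≤ g y := fun y => (hH y).2
  have hgc : Continuous g := Complex.continuous_re.comp H.continuous
  have hint : Integrable g := by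
    have := H.integrable (μ := (volume : Measure (EuclideanSpace ℝ (Fin d))))
    exact this.re
  have hfint : Integrable (𝓕 (fun y => ((g y : ℝ) : ℂ))) := by
    rw [← hHg, ← SchwartzMap.fourier_coe]
    exact (𝓕 H).integrable
  have hmain := bessel_nonneg g hg0 hgc hint hfint κ hκ x
  have hHx : Pool.Agent.H84.BR.CD.besS (-κ) (H : EuclideanSpace ℝ (Fin d) → ℂ) x =
      Pool.Agent.H84.BR.CD.besS (-κ) (fun y => ((g y : ℝ) : ℂ)) x := by rw [← hHg]
  rw [hHx, hmain]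
  have hHe : ∀ y, ‖H y‖ₑ = ENNReal.ofReal (g y) := by
    intro y
    have : H y = ((g y : ℝ) : ℂ) := congrFun hHg y
    rw [this, ← ofReal_norm, Complex.norm_real, Real.norm_of_nonneg (hg0 y)]
  unfold ba
  simp only [hHe]
  have step : ∫⁻ y in closedBall x b, ENNReal.ofReal (g y) ≤
      ENNReal.ofReal ((cK d κ)⁻¹ * b ^ ((d : ℝ) - κ)) *
        ∫⁻ y, besKd κ (x - y) * ENNReal.ofReal (g y) := by
    rw [← lintegral_const_mul' _ _ ENNReal.ofReal_ne_top]
    calc ∫⁻ y in closedBall x b, ENNReal.ofReal (g y) ≤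
        ∫⁻ y in closedBall x b, ENNReal.ofReal ((cK d κ)⁻¹ * b ^ ((d : ℝ) - κ)) *
          (besKd κ (x - y) * ENNReal.ofReal (g y)) := by
          apply setLIntegral_mono' measurableSet_closedBall
          intro y hy
          rw [← mul_assoc]
          calc ENNReal.ofReal (g y) = 1 * ENNReal.ofReal (g y) := (one_mul _).symm
            _ ≤ _ := by
              apply mul_le_mul' _ le_rfl
              have hyb : ‖x - y‖ ≤ b := by
                rw [← dist_eq_norm, dist_comm]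
                exact hy
              calc (1 : ENNReal) = ENNReal.ofReal ((cK d κ)⁻¹ * b ^ ((d : ℝ) - κ)) *
                    ENNReal.ofReal (cK d κ * b ^ (κ - d)) := by
                    rw [← ENNReal.ofReal_mul (by positivity)]
                    have : (cK d κ)⁻¹ * b ^ ((d : ℝ) - κ) * (cK d κ * b ^ (κ - d)) =
                        ((cK d κ)⁻¹ * cK d κ) * (b ^ ((d : ℝ) - κ) * b ^ (κ - d)) := by ring
                    rw [this, inv_mul_cancel₀ hc.ne', ← Real.rpow_add hb]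
                    simp
                _ ≤ _ := by
                    apply mul_le_mul' le_rfl
                    exact besKd_lower κ b hb hb16 _ hyb
      _ ≤ _ := setLIntegral_le_lintegral _ _
  refine step.trans ?_
  apply le_of_eq
  rw [← mul_assoc]
  congr 1
  have h1 : ((((cK d κ)⁻¹ * Real.Gamma (κ / 2)).toNNReal : ℝ≥0) : ℝ≥0∞) =
      ENNReal.ofReal ((cK d κ)⁻¹ * Real.Gamma (κ / 2)) := rfl
  rw [h1, ← ENNReal.ofReal_mul (by positivity), ← ENNReal.ofReal_mul (by positivity)]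
  congr 1
  field_simp

end Pool.Agent.H1.PD
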